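import Mathlib
import Pool.Agent.R658.BGHeis

/-!
# Minimal closed right ideals of the Stone-Cech compactification of a nilpotent group

* If the FC-centre of a group `G` (the subgroup of the elements with finitely many conjugates) has
  finite index, then `βG` has exactly one minimal closed right ideal.
* If `G` is countable and locally finite and its FC-centre has infinite index, then `G` is the union
  of two disjoint completely syndetic sets.
* There is a countable nilpotent group which is not virtually abelian, is the union of two disjoint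
  completely syndetic sets, and for which `βG` has two different minimal closed right ideals.
-/

set_option autoImplicit false

namespace Pool.Agent.Results.MP_be5e04_al.FCCentreCriterion

open Pool.Agent.R658.BG

theorem result :
    (∀ (G : Type) [Group G], (fcCenter G).FiniteIndex →
      ∃! R : Set (Ultrafilter G), IsMinimalClosedRightIdeal R) ∧
    (∀ (G : Type) [Group G] [Countable G], (∀ H : Subgroup G, H.FG → Finite H) →
      ¬ (fcCenter G).FiniteIndex → ∃ A : Set G, IsCS A ∧ IsCS Aᶜ) ∧
    (∃ (G : Type) (_ : Group G), Countable G ∧ Group.IsNilpotent G ∧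
      (¬ ∃ A : Subgroup G, A.FiniteIndex ∧ ∀ x ∈ A, ∀ y ∈ A, x * y = y * x) ∧
      (∃ A : Set G, IsCS A ∧ IsCS Aᶜ) ∧
      ∃ R₁ R₂ : Set (Ultrafilter G), R₁ ≠ R₂ ∧ IsMinimalClosedRightIdeal R₁ ∧
        IsMinimalClosedRightIdeal R₂) := by
  refine ⟨fun G _ h => unique_of_finiteIndex h, fun G _ _ hlf hni => exists_isCS hlf hni, ?_⟩
  have hni : ¬ (fcCenter (Heis (Polynomial (ZMod 2)))).FiniteIndex := Heis.not_finiteIndex
  have hcp : Countable (Polynomial (ZMod 2)) := countable_poly
  obtain ⟨A, hA, hA'⟩ := exists_isCS (G := Heis (Polynomial (ZMod 2))) heis_locallyFinite hni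
  refine ⟨Heis (Polynomial (ZMod 2)), inferInstance, inferInstance, Heis.isNilpotent, ?_,
    ⟨A, hA, hA'⟩, two_of_isCS hA hA'⟩
  rintro ⟨A, hA, hab⟩
  exact hni (fc_of_virtually_abelian A hA hab)

end Pool.Agent.Results.MP_be5e04_al.FCCentreCriterion
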